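import Pool.Agent.P.MP_fd997c_al.Good

set_option autoImplicit false

namespace Pool.Agent.Results.MP_fd997c_al.Counterexample

open CategoryTheory TensorProduct

/-- Over every field `k` there are a commutative Noetherian local `k`-algebra `R` and a finitely
generated `R`-module `M` of projective dimension at most two such that `M ⊗ M` is torsion-free
and `M` is not reflexive. -/
theorem result (k : Type) [Field k] :
    ∃ (R : Type) (_ : CommRing R) (_ : Algebra k R), IsNoetherianRing R ∧ IsLocalRing R ∧
      ∃ (M : Type) (_ : AddCommGroup M) (_ : Module R M), Module.Finite R M ∧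
        HasProjectiveDimensionLE (ModuleCat.of R M) 2 ∧
        (∀ r ∈ nonZeroDivisors R, ∀ x : M ⊗[R] M, r • x = 0 → x = 0) ∧
        ¬ Module.IsReflexive R M :=
  Pool.Agent.P.MP_fd997c_al.main k

end Pool.Agent.Results.MP_fd997c_al.Counterexample
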